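import Pool.Agent.Y228.RR.Mot

set_option autoImplicit false

/-! # The motivic monodromy conjecture at all points for products of powers of forms over ideals with
# Rees divisors

Let `g t j ∈ ℂ[x_i]`, `t ∈ T`, be generators of ideals `I_t ≠ 0` (no condition on the dimension, on
the number of the ideals or on their zero sets), let `F_t = ∑_j y_{t,j} g t j`, where the `y_{t,j}`
are further variables, separate for each `t` (`blockForm`), and let `f = ∏ t, F_t ^ a t` (`powProd`).
Let `Y` be a log resolution of the product of the `I_t` with `a t > 0`, with the components `E_i`,
`i ∈ I`, let `k i` be the multiplicity of `E_i` in the relative canonical divisor and `m i t` the order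
of `I_t` along `E_i`. Locally on `Y` the form `F_t` is one of the `g t j` times
`y_{t,j} + ∑_{i ≠ j} h_i y_{t,i}`, so it is a monomial times a function whose zero locus is smooth;
these zero loci, for the different `t`, cross each other and the `E_i` normally. Hence `Y` times the
space of the `y` is an embedded resolution of `f`, with the components `E_i`, of multiplicity
`N_i = ∑ t, a t * m i t` (and `ν_i = k i + 1`), and, for `a t > 0`, the strict transform of `F_t = 0`, of
multiplicity `a t` (and `ν = 1`): `mulR`, `nuR`.

By the formula of Denef and Loeser the local motivic zeta function `Z_{f,x}(T)` of `f` at a point `x`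
(jets `ψ` with `ψ(0) = x` and `f(ψ) = t ^ m mod t ^ (m + 1)`) is
`∑_J c_J ∏_{i ∈ J} 𝕃 ^ (-ν_i) T ^ (N_i) / (1 - 𝕃 ^ (-ν_i) T ^ (N_i))` (`dlZ`), where `J` runs over the
non-empty sets of components and `c_J` is `(𝕃 - 1) ^ (|J| - 1)` times the class of the part of the
covering of the stratum `J` over `x`. The ring `R` below is a commutative ring with a unit `u`, for
example `R = 𝓜_{k_x}` with `u = 𝕃`.

The proof: a functional equation of `f` gives a functional equation of the product of the powers of
the ideals, with the same `b` (`locEq_of_powProd`); a Rees divisor of this product gives roots, by a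
residue computation at a general point of `E_i` (`rees_prod`); the roots `-1 / a t` come from the
strict transforms (`strict_root`). -/

namespace Pool.Agent.Results.MP_b91a16_ag.ReesProducts

open Pool.Agent.H628R4.TP Pool.Agent.TH192.DT Pool.Agent.Y231.RF Pool.Agent.Y228.RR

/-- **The motivic monodromy conjecture at all points for products of powers of forms over ideals whose
exceptional divisors are Rees divisors.** Suppose that, for the components `E_i` with `N_i > 0`, the
numbers `-ν_i / N_i` come from Rees divisors (`FromRees`, with `H = 1`). Then there is ONE finite set
`P` of pairs `(b1, b2)`, `b1 < 0 < b2`, such that `b1 / b2` is a root of every `b` with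
`b(s) f ^ s = P(s) f ^ (s + 1)`, in particular of the Bernstein-Sato polynomial of `f`, and such that,
for all commutative rings `R` with a unit `u` (`𝓜_{k_x}` and `𝕃`, for all the points `x`) and all
coefficients `c J ∈ R`, the series `Z = dlZ u (nuR k T) (mulR a m) c`, which is given by the formula of
Denef and Loeser on the resolution described above, lies in the ring generated over `R` by `T` and
the `1 / (1 - u ^ b1 T ^ b2)`, `(b1, b2) ∈ P`.

If moreover the numbers come from Rees divisors near the origin (`FromRees` for all `H` with
`H(0) ≠ 0`), then the `b1 / b2` are also roots of every `b` which satisfies a functional equation with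
formal power series at the origin as coefficients: of the local Bernstein-Sato polynomial of `f` at
the origin.

`FromRees g a H ν N` says that `ν / N = (k_E + 1 + l) / N_E` for a Rees divisor `E` of the product of the
ideals `I_t` with `a t ≠ 0` and a general point of `E` over a point of the affine space at which `H`
does not vanish, where `k_E` is the multiplicity of `E` in the relative canonical divisor, `N_E` is
the order of `∏ t, I_t ^ a t` along `E`, and `l < N_E` is the order along `E` of some polynomial (for
instance `1`, with `l = 0`); for a component `E_i` which is itself a Rees divisor this is so with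
`E = E_i` and `l = 0`.

`Chart g` is a formal chart of the resolution at a point `p` of a prime divisor `E` over the affine
space: power series `ξ i` (the coordinates `x i` of the affine space), in formal coordinates at `p`
one of which, `z`, is the equation of `E`, whose Jacobian determinant is `z ^ k` times a unit, and
for which each `I_t` becomes `(z ^ m t)`. `E.IsRees A` says that the map from `E` to the product of
the affine space and of the projective spaces of the generators of the `I_t`, `t ∈ A`, is unramified
at `p`: some functions which together with `z` are formal coordinates at `p` are pull-backs of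
polynomials or of quotients `(∑ j, c_j g s j) / g s (j0 s)`, `s ∈ A`. This is so at the general points
of a divisor `E` if and only if `E` is a Rees divisor of the product of the `I_t`, `t ∈ A` (it is not
contracted in the blow-up of the product). -/
theorem result {σ T I : Type} [Fintype σ] [DecidableEq σ] [Fintype T] [DecidableEq T] [Fintype I]
    {κ : T → Type} [∀ t, Fintype (κ t)] [∀ t, DecidableEq (κ t)]
    (g : (t : T) → κ t → MvPolynomial σ ℂ) (hg : ∀ t, ∃ j, g t j ≠ 0) (a : T → ℕ)
    (k : I → ℕ) (m : I → T → ℕ)
    (hE : ∀ i : I, 0 < ∑ t, a t * m i t → FromRees g a 1 (k i + 1) (∑ t, a t * m i t)) :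
    ∃ P : Finset (ℤ × ℤ), (∀ q ∈ P, q.1 < 0 ∧ 0 < q.2 ∧
      (∀ b : Polynomial ℂ, IsBFunction (powProd a g) b → b.eval ((q.1 : ℂ) / q.2) = 0) ∧
      ((∀ i : I, 0 < ∑ t, a t * m i t →
          ∀ H : MvPolynomial σ ℂ, MvPolynomial.constantCoeff H ≠ 0 →
            FromRees g a H (k i + 1) (∑ t, a t * m i t)) →
        ∀ b : Polynomial ℂ, IsLocalBFunction (powProd a g) b →
          b.eval ((q.1 : ℂ) / q.2) = 0)) ∧
      ∀ (R : Type) [CommRing R] (u : Rˣ) (c : Finset {x // 0 < mulR a m x} → R),
        dlZ u (nuR k T) (mulR a m) c ∈ ratU u (P : Set (ℤ × ℤ)) :=
  ⟨pairs (nuR k T) (mulR a m), fun q hq => ⟨(pairs_sign _ _ (nuR_pos k) q hq).1,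
    (pairs_sign _ _ (nuR_pos k) q hq).2, fun b hb => mot_global g hg a k m hE q hq b hb,
    fun hE' b hb => mot_local g hg a k m hE' q hq b hb⟩, fun _ _ u c => dlZ_mem u _ _ c⟩

end Pool.Agent.Results.MP_b91a16_ag.ReesProducts
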