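import Pool.Agent.Q300.LM.Glob

/-!
# The motivic monodromy conjecture at points with stably sparse germs

Let `f ∈ ℂ[x_1, …, x_n]` be nonconstant and `f(p) = 0`. The germ of `f` at `p` is stably sparse if for
some `κ` the germ of `f(p + x) + y_1 z_1 + ⋯ + y_κ z_κ` becomes, in suitable FORMAL coordinates and up
to a unit factor, a polynomial `∑_j c_j X ^ (v j)` with affinely independent exponents. We prove the
motivic monodromy conjecture for `f` at such a point `p`, with roots of the LOCAL Bernstein-Sato
polynomial at `p`; nothing is assumed at the other points. Second part: if `{f = 0}` has only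
finitely many points where all the partial derivatives of `f` vanish, and the germ of `f` at each
of them is stably sparse (for instance, a simple singularity, or one given by a Brieskorn-Pham
polynomial or an invertible polynomial in suitable formal coordinates), then one finite set of
pairs, with roots of the Bernstein-Sato polynomial of `f`, works for all points.

Method. (1) The classes of the `N`-jets with origin `0` on which `F` has order `N` and a given
angular component (or order at least `i`) are invariant under formal changes of coordinates and
multiplication of `F` by a unit with constant term one; the inverse of a formal change of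
coordinates is constructed up to any order by Newton's method. (2) By the classification of the jets
of `F + y z` (starting library, `Y229.MS`) the classes for `F` determine those for `F + y z` for all
origins `(0, y, z)`; the origins different from `0` are smooth points and contribute only the factor
`1 / (1 - 𝕃 ^ (-1) T)` (`Q59.TR`). So the zeta functions of `G` and `G + y z` at the origin determine
that of `f`. (3) The theorem on affinely independent exponents at the origin (starting library,
`TH216.LR`) is refined: `(1 - 𝕃 ^ (-1) T) Z_{G,0}(T)` has only the denominators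
`1 - 𝕃 ^ (- |a|) T ^ (N_a)` such that `- |a| / N_a` is a root of every `c(s)` with `(s + 1) c(s)` in the
local Bernstein-Sato ideal of `G`. (4) A local functional equation of `f` with `(s + 1) c(s)` gives
one of `G` with `(s + 1) c(s + κ)`.
-/

set_option autoImplicit false

namespace Pool.Agent.Results.MP_b91a16_ag.StablySparsePoints

open MvPolynomial Pool.Agent.W428.MOT Pool.Agent.Q300.LM
open Pool.Agent.W375.MG (zetaG Good)
open Pool.Agent.H628R4.TP (IsBFunction IsLocalBFunction)

/-- the local zeta function at a point, from the one with given origin -/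
theorem zeta_mem' {n : ℕ} (f : MvPolynomial (Fin n) ℂ) (p : Fin n → ℂ) (S : Set (ℤ × ℤ))
    (h : ∀ E : Set (AlgebraicClosure ℂ), Good E → zetaG f {ip p} E ∈ ratRing ℂ S) :
    zeta f p ∈ ratRing ℂ S := by
  have h1 := h {1} Pool.Agent.W375.MG.good_one
  have e : zeta f p = zetaG f {ip p} {1} -
      PowerSeries.C (PowerSeries.coeff 0 (zetaG f {ip p} {1})) := by
    ext d
    rw [map_sub, PowerSeries.coeff_C]
    by_cases hd : d = 0
    · subst hd
      rw [if_pos rfl, sub_self, Pool.Agent.W428.MOT.zeta, PowerSeries.coeff_mk, if_pos rfl]
    · rw [if_neg hd, sub_zero, Pool.Agent.W428.MOT.zeta, PowerSeries.coeff_mk, if_neg hd,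
        zetaG, PowerSeries.coeff_mk]
      have h3 : Jet f p d = Pool.Agent.W375.MG.JetG f {ip p} {1} d := by
        ext z
        simp only [Jet, Pool.Agent.W375.MG.JetG, ip, Set.mem_ofPred_eq, Set.mem_singleton_iff,
          funext_iff]
        refine and_congr_right fun _ => ?_
        constructor
        · intro h
          refine ⟨fun j hj => ?_, ?_⟩
          · rw [h j hj.le, if_neg (by omega)]
          · rw [h d le_rfl, if_pos rfl]
        · rintro ⟨h1, h2⟩ j hj
          by_cases h : j = d
          · rw [h, h2, if_pos rfl]
          · rw [h1 j (by omega), if_neg h]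
      rw [h3]
  rw [e]
  exact (ratRing ℂ S).sub_mem h1 (Pool.Agent.W63.MTFin.C_mem _ _)

/-- The conclusion for `f` at the point `p`: a finite set of pairs, giving roots of all polynomials
with a local functional equation at `p` and of all polynomials with a global one, such that the
motivic zeta functions of `f` with origin `p` have only the denominators given by the pairs. -/
def AtPoint {n : ℕ} (f : MvPolynomial (Fin n) ℂ) (p : Fin n → ℂ) : Prop :=
  ∃ S : Finset (ℤ × ℤ),
    (∀ q ∈ S, 0 < q.2 ∧
      (∀ b : Polynomial ℂ, IsLocalBFunction (aeval (fun i => X i + C (p i)) f) b →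
        b.eval ((q.1 : ℂ) / q.2) = 0) ∧
      ∀ b : Polynomial ℂ, IsBFunction f b → b.eval ((q.1 : ℂ) / q.2) = 0) ∧
    zeta f p ∈ ratRing ℂ S ∧
    ∀ E : Set (AlgebraicClosure ℂ), Good E → zetaG f {ip p} E ∈ ratRing ℂ S

/-- The uniform conclusion for `f`: one finite set of pairs, giving roots of all polynomials with a
functional equation for `f`, for the motivic zeta functions at all points. -/
def AllPoints {n : ℕ} (f : MvPolynomial (Fin n) ℂ) : Prop :=
  ∃ S : Finset (ℤ × ℤ),
    (∀ q ∈ S, 0 < q.2 ∧ ∀ b : Polynomial ℂ, IsBFunction f b →
      b.eval ((q.1 : ℂ) / q.2) = 0) ∧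
    ∀ p : Fin n → ℂ, zeta f p ∈ ratRing ℂ S

/-- `p` is a point of `{f = 0}` at which all the partial derivatives of `f` vanish. -/
def Singular {n : ℕ} (f : MvPolynomial (Fin n) ℂ) (p : Fin n → ℂ) : Prop :=
  eval p f = 0 ∧ ∀ j, eval p (pderiv j f) = 0

/-- **The motivic monodromy conjecture (Bernstein-Sato form) at points with stably sparse germs.**

`StablySparseAt f p`: for some `κ` the germ of `f(p + x) + ∑_{i ≤ κ} y_i z_i` at the origin becomes, in
suitable formal coordinates and up to a unit factor, a polynomial `∑_j c_j X ^ (v j)`, `c_j ≠ 0`, at
least one term, with affinely independent exponents `v j ≠ 0`. `zeta f p` is the local motivic zeta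
function `∑_{N ≥ 1} [X_{N,1,p}] 𝕃 ^ (- n N) T ^ N` of the problem; for `zetaG f {ip p} E` the condition
on the jets is `f = a t ^ N mod t ^ (N + 1)`, `a ∈ E`, `E` a constructible set of nonzero numbers (and
`N = 0` is included). `IsLocalBFunction g b` says that `b(s) g ^ s = P(s) g ^ (s + 1)` for a
differential operator `P(s)` with formal (in particular convergent) power series at the origin as
coefficients, polynomial in `s`; `IsBFunction f b`: the same with `P(s)` in the Weyl algebra. -/
theorem result {n : ℕ} (f : MvPolynomial (Fin n) ℂ) (hf : f.totalDegree ≠ 0) :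
    (∀ p : Fin n → ℂ, eval p f = 0 → StablySparseAt f p → AtPoint f p) ∧
    ({p | Singular f p}.Finite → (∀ p, Singular f p → StablySparseAt f p) → AllPoints f) := by
  refine ⟨fun p hp hs => ?_, fun hfin h => ?_⟩
  · obtain ⟨S, hS, hz⟩ := at_point' f hf p hp hs
    refine ⟨S, fun q hq => ⟨(hS q hq).1, (hS q hq).2, fun b hb => (hS q hq).2 b
      (local_of_global hb p)⟩, zeta_mem' f p _ hz, hz⟩
  · obtain ⟨S, hS, hz⟩ := Pool.Agent.Q300.LM.global f hf hfin (fun p h1 h2 => h p ⟨h1, h2⟩)
    exact ⟨S, hS, fun p => zeta_mem' f p _ fun E hE => hz _ E (constr_ip p) hE⟩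

end Pool.Agent.Results.MP_b91a16_ag.StablySparsePoints
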