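import Pool.Agent.Q260.MM.Gl

/-!
# The motivic monodromy conjecture at a point: reduction to trilinear polynomials

Let `f ∈ ℂ[x_1, …, x_n]`, `f ≠ 0`, and let `x` be a zero of `f`. For `κ ≥ κ(f)` the polynomial
`f(x) + y_1 z_1 + ⋯ + y_κ z_κ` becomes, by an automorphism of the affine space, a polynomial `G` of the
form `∑ a_{ijk} x_i y_j z_k` with `x_0 = y_0 = z_0 = 1`, the point going to the origin; the germ of `G` at
the origin is, up to a unit, the germ of the cubic form `∑ a_{ijk} x_i y_j z_k` (a 3-tensor) at a point.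

The local motivic zeta function `Z_{f,x}(T)` of the problem (jets with `ψ(0) = x`, `f(ψ) = t ^ m`) and
the Bernstein-Sato polynomial of `f` are compared with those of `G`, for `κ` and `κ + 1`. It follows
that each of the following three forms of the conjecture for all complex polynomials and all their
zeros is equivalent to its case of the trilinear polynomials and the origin:

(A) every pole of `Z_{f,x}(T)` is a root of `b_f`;

(B) `(1 - 𝕃⁻¹ T) Z_{f,x}(T)` lies in the subring generated by `𝓜`, `T` and finitely many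
`1 / (1 - 𝕃 ^ a T ^ b)` such that `a / b` is a root of the reduced Bernstein-Sato polynomial
`b_f(s) / (s + 1)`. This implies the conjecture Q1 for `f`, and it takes into account the order of the
pole at `-1`;

(C) `Z_{f,x}(T)` lies in the subring generated by `𝓜`, `T` and finitely many `1 / (1 - 𝕃 ^ a T ^ b)` such
that `exp(2 π i a / b)` is a local monodromy eigenvalue of `f` (some `a / b - i`, `i ∈ ℤ`, is a root of
`b_f`): the monodromy statement of Q1.

The elimination for `f + y z` is from the starting library (`Pool.Agent.Y229.MS`), the automorphism and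
the contribution of the smooth points over the origin are from `Pool.Agent.Q59.TR`.
-/

set_option autoImplicit false

namespace Pool.Agent.Results.MP_b91a16_ag.TrilinearReduction

open MvPolynomial Pool.Agent.W375.MG Pool.Agent.W428.MOT Pool.Agent.H628R4.TP

/-- The local motivic zeta function `∑_{m ≥ 0} [X_{m,1,x}] 𝕃 ^ (- m n) T ^ m` of `f` at the point
`x ∈ ℂ ^ n` (if `f(x) = 0`, the coefficient for `m = 0` is zero). -/
noncomputable def Z {n : ℕ} (f : MvPolynomial (Fin n) ℂ) (x : Fin n → ℂ) :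
    PowerSeries (MK ℂ) :=
  zetaW f {fun i => algebraMap ℂ (AlgebraicClosure ℂ) (x i)}

/-- (A) Every rational pole (sense of the problem MP_b07157_ag: `Z` does not lie in the subring
generated by `𝓜`, `T` and all `1 / (1 - 𝕃 ^ a T ^ b)`, `b > 0`, `a / b ≠ s₀`) of the local motivic zeta
function is a root of every polynomial `b` with `b(s) f ^ s = P(s) f ^ (s + 1)` (`IsBFunction f b`), in
particular of the Bernstein-Sato polynomial `b_f`. -/
def PolesMC {n : ℕ} (f : MvPolynomial (Fin n) ℂ) (x : Fin n → ℂ) : Prop :=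
  ∀ s₀ : ℚ, IsPole (Z f x) s₀ → ∀ b : Polynomial ℂ, IsBFunction f b → b.eval (s₀ : ℂ) = 0

/-- (B) `(1 - 𝕃⁻¹ T) Z_{f,x}(T)` lies in the subring generated by `𝓜`, `T` and the
`1 / (1 - 𝕃 ^ a T ^ b)`, `(a, b) ∈ S`, for a finite set `S` of pairs with `b > 0` such that `a / b` is a
root of every `c` with `(s + 1) c(s) f ^ s = P(s) f ^ (s + 1)`, i.e. of `b_f(s) / (s + 1)`. -/
def ReducedMC {n : ℕ} (f : MvPolynomial (Fin n) ℂ) (x : Fin n → ℂ) : Prop :=
  ∃ S : Finset (ℤ × ℤ),
    (∀ p ∈ S, 0 < p.2 ∧ ∀ c : Polynomial ℂ, IsBFunction f ((Polynomial.X + 1) * c) →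
      c.eval ((p.1 : ℂ) / p.2) = 0) ∧
    (1 - PowerSeries.C (((Lu ℂ)⁻¹ : (MK ℂ)ˣ) : MK ℂ) * PowerSeries.X) * Z f x ∈
      ratRing ℂ (S : Set (ℤ × ℤ))

/-- (C) `Z_{f,x}(T)` lies in the subring generated by `𝓜`, `T` and the `1 / (1 - 𝕃 ^ a T ^ b)`,
`(a, b) ∈ S`, for a finite set `S` of pairs with `b > 0` such that some `a / b - i`, `i ∈ ℤ`, is a root of
the Bernstein-Sato polynomial: `exp(2 π i a / b)` is a local monodromy eigenvalue of `f`. -/
def MonodromyMC {n : ℕ} (f : MvPolynomial (Fin n) ℂ) (x : Fin n → ℂ) : Prop :=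
  ∃ S : Finset (ℤ × ℤ),
    (∀ p ∈ S, 0 < p.2 ∧ ∀ b : Polynomial ℂ, IsBFunction f b →
      ∃ i : ℤ, b.eval ((p.1 : ℂ) / p.2 - i) = 0) ∧
    Z f x ∈ ratRing ℂ (S : Set (ℤ × ℤ))

/-- `f = ∑ a_{ijk} x_i y_j z_k` with `x_0 = y_0 = z_0 = 1`: the variables can be coloured with three
colours such that every monomial of `f` is of degree at most one in the variables of each colour. -/
def Trilinear {n : ℕ} (f : MvPolynomial (Fin n) ℂ) : Prop :=
  ∃ col : Fin n → Fin 3, ∀ w ∈ f.support, ∀ g : Fin 3,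
    ∑ i ∈ Finset.univ.filter (fun i => col i = g), w i ≤ 1

open Pool.Agent.Q260.MM Pool.Agent.Q59.TR Pool.Agent.Y229.MS

theorem Z_zero {n : ℕ} (f : MvPolynomial (Fin n) ℂ) : Z f 0 = zetaG f {0} {1} := by
  unfold Z
  rw [zetaW_eq]
  congr 2
  funext i
  simp

theorem constr_point {n : ℕ} (x : Fin n → ℂ) :
    Constr ({fun i => algebraMap ℂ (AlgebraicClosure ℂ) (x i)} : Set (Pt ℂ (Fin n))) := by
  have h : ({fun i => algebraMap ℂ (AlgebraicClosure ℂ) (x i)} : Set (Pt ℂ (Fin n))) =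
      {z | ∀ i, z i = algebraMap ℂ (AlgebraicClosure ℂ) (x i)} := by
    ext z
    rw [Set.mem_singleton_iff]
    exact funext_iff
  rw [h]
  exact Constr.all fun i => Constr.eq (IsPF.coord i) ⟨C (x i), fun z => by rw [aeval_C]⟩

/-- translation of the point to the origin -/
theorem Z_trl {n : ℕ} (f : MvPolynomial (Fin n) ℂ) (x : Fin n → ℂ) :
    Z (trl x f) 0 = Z f x := by
  rw [Z_zero]
  unfold Z
  rw [zetaW_eq]
  have h := zeta_iso Pool.Agent.Z864.MS.three rfl (trl x) f
    (W := {fun i => algebraMap ℂ (AlgebraicClosure ℂ) (x i)}) (constr_point x)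
    (ce_good (K := ℂ) good_one)
  rw [← h]
  congr 1
  ext w
  have hX : ∀ i, trl x (X i) = X i + C (x i) := by
    intro i
    rw [trl_apply, aeval_X]
  simp only [Set.mem_singleton_iff, Set.mem_ofPred_eq, hX, map_add, aeval_X, aeval_C]
  constructor
  · rintro rfl
    funext i
    rw [Pi.zero_apply, zero_add]
  · intro hw
    funext i
    have h1 := congrFun hw i
    simpa using h1

theorem deg_of {n : ℕ} {f : MvPolynomial (Fin n) ℂ} (hf : f ≠ 0) (h0 : constantCoeff f = 0) :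
    f.totalDegree ≠ 0 := by
  intro h
  rw [totalDegree_eq_zero_iff_eq_C] at h
  apply hf
  rw [h]
  have h1 : coeff 0 f = 0 := h0
  rw [h1, C_0]

theorem ne_of {n : ℕ} {f : MvPolynomial (Fin n) ℂ} (hf : f.totalDegree ≠ 0) : f ≠ 0 := by
  rintro rfl
  exact hf totalDegree_zero

theorem back {n : ℕ} {f : MvPolynomial (Fin n) ℂ} {x : Fin n → ℂ} {b : Polynomial ℂ}
    (h : IsBFunction f b) : IsBFunction (trl x f) b :=
  Pool.Agent.W206.CU.isBFunction_iso (trl x) h

theorem poles_trl {n : ℕ} {f : MvPolynomial (Fin n) ℂ} {x : Fin n → ℂ}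
    (h : PolesMC (trl x f) 0) : PolesMC f x := by
  intro s₀ hs b hb
  rw [← Z_trl] at hs
  exact h s₀ hs b (back hb)

theorem reduced_trl {n : ℕ} {f : MvPolynomial (Fin n) ℂ} {x : Fin n → ℂ}
    (h : ReducedMC (trl x f) 0) : ReducedMC f x := by
  obtain ⟨S, hS, h1⟩ := h
  refine ⟨S, fun p hp => ⟨(hS p hp).1, fun c hc => (hS p hp).2 c (back hc)⟩, ?_⟩
  rw [← Z_trl]
  exact h1

theorem monodromy_trl {n : ℕ} {f : MvPolynomial (Fin n) ℂ} {x : Fin n → ℂ}
    (h : MonodromyMC (trl x f) 0) : MonodromyMC f x := by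
  obtain ⟨S, hS, h1⟩ := h
  refine ⟨S, fun p hp => ⟨(hS p hp).1, fun c hc => (hS p hp).2 c (back hc)⟩, ?_⟩
  rw [← Z_trl]
  exact h1

theorem trl_ok {n : ℕ} {f : MvPolynomial (Fin n) ℂ} {x : Fin n → ℂ} (hf : f ≠ 0)
    (hx : eval x f = 0) : (trl x f).totalDegree ≠ 0 ∧ constantCoeff (trl x f) = 0 := by
  have h0 : constantCoeff (trl x f) = 0 := by rw [trl_const, hx]
  refine ⟨deg_of ?_ h0, h0⟩
  intro h
  exact hf ((map_eq_zero_iff _ (trl x).injective).1 h)

theorem reduced_iff {n : ℕ} (f : MvPolynomial (Fin n) ℂ) :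
    ReducedMC f 0 ↔ fst' ℂ * zetaG f {0} {1} ∈ ratRing ℂ (RdG f) := by
  rw [← Z_zero]
  constructor
  · rintro ⟨S, hS, h⟩
    exact ratRing_mono (fun p hp => hS p hp) h
  · intro h
    obtain ⟨F, hF, h1⟩ := exists_finite h
    exact ⟨F, fun p hp => hF hp, h1⟩

theorem monodromy_iff {n : ℕ} (f : MvPolynomial (Fin n) ℂ) :
    MonodromyMC f 0 ↔ zetaG f {0} {1} ∈ ratRing ℂ (WkG f) := by
  rw [← Z_zero]
  constructor
  · rintro ⟨S, hS, h⟩
    exact ratRing_mono (fun p hp => hS p hp) h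
  · intro h
    obtain ⟨F, hF, h1⟩ := exists_finite h
    exact ⟨F, fun p hp => hF hp, h1⟩

theorem eval_zero_iff {n : ℕ} (f : MvPolynomial (Fin n) ℂ) :
    eval (0 : Fin n → ℂ) f = constantCoeff f := by
  rw [MvPolynomial.eval_zero]

/-- **Reduction of the three forms of the conjecture to trilinear polynomials.** -/
theorem result :
    ((∀ (n : ℕ) (f : MvPolynomial (Fin n) ℂ) (x : Fin n → ℂ), f ≠ 0 → eval x f = 0 →
        PolesMC f x) ↔
      ∀ (n : ℕ) (f : MvPolynomial (Fin n) ℂ), f ≠ 0 → constantCoeff f = 0 → Trilinear f →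
        PolesMC f 0) ∧
    ((∀ (n : ℕ) (f : MvPolynomial (Fin n) ℂ) (x : Fin n → ℂ), f ≠ 0 → eval x f = 0 →
        ReducedMC f x) ↔
      ∀ (n : ℕ) (f : MvPolynomial (Fin n) ℂ), f ≠ 0 → constantCoeff f = 0 → Trilinear f →
        ReducedMC f 0) ∧
    ((∀ (n : ℕ) (f : MvPolynomial (Fin n) ℂ) (x : Fin n → ℂ), f ≠ 0 → eval x f = 0 →
        MonodromyMC f x) ↔
      ∀ (n : ℕ) (f : MvPolynomial (Fin n) ℂ), f ≠ 0 → constantCoeff f = 0 → Trilinear f →
        MonodromyMC f 0) := by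
  refine ⟨⟨fun h n f hf h0 _ => h n f 0 hf (by rw [eval_zero_iff, h0]), fun h n f x hf hx => ?_⟩,
    ⟨fun h n f hf h0 _ => h n f 0 hf (by rw [eval_zero_iff, h0]), fun h n f x hf hx => ?_⟩,
    ⟨fun h n f hf h0 _ => h n f 0 hf (by rw [eval_zero_iff, h0]), fun h n f x hf hx => ?_⟩⟩
  · obtain ⟨h1, h2⟩ := trl_ok hf hx
    apply poles_trl
    unfold PolesMC
    rw [Z_zero]
    refine strongPole_transfer good_one (fun m g hg hg0 hT => ?_) (trl x f) h1 h2
    have h3 := h m g (ne_of hg) hg0 hT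
    unfold PolesMC at h3
    rw [Z_zero] at h3
    exact h3
  · obtain ⟨h1, h2⟩ := trl_ok hf hx
    apply reduced_trl
    rw [reduced_iff]
    exact fst_transfer good_one (fun n f => RdG f) (fun n f p hp => hp.1)
      (fun n M f G j hf hG => shiftR_mem hG)
      (fun m g hg hg0 hT => (reduced_iff g).1 (h m g (ne_of hg) hg0 hT)) (trl x f) h1 h2
  · obtain ⟨h1, h2⟩ := trl_ok hf hx
    apply monodromy_trl
    rw [monodromy_iff]
    have h3 := fst_transfer good_one (fun n f => WkG f) (fun n f p hp => hp.1)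
      (fun n M f G j hf hG => shiftG_mem hf hG)
      (fun m g hg hg0 hT => (ratRing ℂ _).mul_mem (fst_mem _)
        ((monodromy_iff g).1 (h m g (ne_of hg) hg0 hT))) (trl x f) h1 h2
    refine ratRing_mono ?_ (zeta_of_fst _ _ _ _ h3)
    rintro p (rfl | hp)
    · exact intG_mem h1
    · exact hp

end Pool.Agent.Results.MP_b91a16_ag.TrilinearReduction
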